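import Pool.Agent.Helper20.RG.St1
import Pool.Agent.Helper79.LM.M_PL
import Pool.Agent.Helper17.LM.M_L2E

/-!
# Project RG (MP_cb927e_an): module L2A

The `L^2` bound of a sum of operators given by multipliers, by Plancherel.
-/

set_option autoImplicit false

open MeasureTheory Set Filter Topology
open scoped ENNReal RealInnerProductSpace FourierTransform

namespace Pool.Agent.Helper80.RG

open Pool.Agent.Helper20.RG
open Pool.Agent.Helper68.LM (Pl BB ft)

lemma BB_zero : BB (fun _ : Pl => (0 : ℝ)) := by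
  refine ⟨measurable_const, 0, ?_, ?_⟩
  · intro x
    simp
  · intro x _
    rfl

lemma BB_add {g h : Pl → ℝ} (hg : BB g) (hh : BB h) : BB (fun x => g x + h x) := by
  obtain ⟨hgm, K, hK, hK0⟩ := hg
  obtain ⟨hhm, L, hL, hL0⟩ := hh
  have hKn : 0 ≤ K := (abs_nonneg _).trans (hK 0)
  have hLn : 0 ≤ L := (abs_nonneg _).trans (hL 0)
  refine ⟨hgm.add hhm, K + L, ?_, ?_⟩
  · intro x
    exact (abs_add_le _ _).trans (add_le_add (hK x) (hL x))
  · intro x hx
    show g x + h x = 0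
    rw [hK0 x (by linarith), hL0 x (by linarith), add_zero]

lemma BB_sum (T : ℕ → Pl → ℝ) (N : ℕ) (hT : ∀ j < N, BB (T j)) :
    BB (fun x => ∑ j ∈ Finset.range N, T j x) := by
  induction N with
  | zero => simpa using BB_zero
  | succ n ih =>
    have h1 := ih (fun j hj => hT j (Nat.lt_succ_of_lt hj))
    have h2 := BB_add h1 (hT n (Nat.lt_succ_self n))
    have e : (fun x => ∑ j ∈ Finset.range (n + 1), T j x) =
        fun x => (∑ j ∈ Finset.range n, T j x) + T n x := by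
      funext x
      rw [Finset.sum_range_succ]
    rw [e]
    exact h2

lemma ft_add {g h : Pl → ℝ} (hg : BB g) (hh : BB h) (ξ : Pl) :
    ft (fun x => g x + h x) ξ = ft g ξ + ft h ξ := by
  have h1 : Integrable (fun x => (g x : ℂ)) (volume : Measure Pl) :=
    memLp_one_iff_integrable.1 (Helper79.LM.memLp_of_BB hg 1)
  have h2 : Integrable (fun x => (h x : ℂ)) (volume : Measure Pl) :=
    memLp_one_iff_integrable.1 (Helper79.LM.memLp_of_BB hh 1)
  have e : (fun x => ((g x + h x : ℝ) : ℂ)) = (fun x => (g x : ℂ)) + fun x => (h x : ℂ) := by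
    funext x
    simp
  unfold ft
  rw [e]
  have := VectorFourier.fourierIntegral_add (μ := (volume : Measure Pl))
    (e := Real.fourierChar) (L := innerₗ Pl) Real.continuous_fourierChar continuous_inner h1 h2
  exact congrFun this ξ

lemma ft_zero (ξ : Pl) : ft (fun _ => (0 : ℝ)) ξ = 0 := by
  unfold ft
  rw [Real.fourier_eq']
  simp

lemma ft_sum (T : ℕ → Pl → ℝ) (N : ℕ) (hT : ∀ j < N, BB (T j)) (ξ : Pl) :
    ft (fun x => ∑ j ∈ Finset.range N, T j x) ξ = ∑ j ∈ Finset.range N, ft (T j) ξ := by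
  induction N with
  | zero => simpa using ft_zero ξ
  | succ n ih =>
    have hT' : ∀ j < n, BB (T j) := fun j hj => hT j (Nat.lt_succ_of_lt hj)
    have e : (fun x => ∑ j ∈ Finset.range (n + 1), T j x) =
        fun x => (∑ j ∈ Finset.range n, T j x) + T n x := by
      funext x
      rw [Finset.sum_range_succ]
    rw [e, ft_add (BB_sum T n hT') (hT n (Nat.lt_succ_self n)) ξ, ih hT', Finset.sum_range_succ]

theorem hL2A : StL2A := by
  intro N T μ g A B hg hA hB hT hA1 hB1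
  have hBB : ∀ k : ℤ, ∀ j < N, BB (T k j) := fun k j hj => (hT k j hj).1
  have hft : ∀ (k : ℤ) (ξ : Pl), ft (fun x => ∑ j ∈ Finset.range N, T k j x) ξ =
      (∑ j ∈ Finset.range N, μ j ((2 : ℝ) ^ k • ξ)) * ft g ξ := by
    intro k ξ
    rw [ft_sum (T k) N (hBB k) ξ, Finset.sum_mul]
    refine Finset.sum_congr rfl fun j hj => ?_
    exact (hT k j (Finset.mem_range.1 hj)).2 ξ
  have key := Helper17.LM.l2_core Helper79.LM.hPL
    (fun k x => ∑ j ∈ Finset.range N, T k j x) g (fun k => BB_sum (T k) N (hBB k)) hg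
    (fun k ξ => A * ∑ j ∈ Finset.range N, ‖μ j ((2 : ℝ) ^ k • ξ)‖) 1 (A * B) one_pos ?_ ?_
  · have e : (1 : ℝ) ^ 2 * (A * B) = A * B := by ring
    rw [e] at key
    exact key
  · intro k ξ hξ
    have h2k : (0 : ℝ) < (2 : ℝ) ^ k := by positivity
    have hη : (2 : ℝ) ^ k • ξ ≠ 0 := smul_ne_zero h2k.ne' hξ
    rw [hft k ξ, norm_mul, mul_pow]
    have hs0 : 0 ≤ ∑ j ∈ Finset.range N, ‖μ j ((2 : ℝ) ^ k • ξ)‖ :=
      Finset.sum_nonneg fun j _ => norm_nonneg _
    have h1 : ‖∑ j ∈ Finset.range N, μ j ((2 : ℝ) ^ k • ξ)‖ ^ 2 ≤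
        A * ∑ j ∈ Finset.range N, ‖μ j ((2 : ℝ) ^ k • ξ)‖ := by
      have hle : ‖∑ j ∈ Finset.range N, μ j ((2 : ℝ) ^ k • ξ)‖ ≤
          ∑ j ∈ Finset.range N, ‖μ j ((2 : ℝ) ^ k • ξ)‖ := norm_sum_le _ _
      rw [sq]
      exact mul_le_mul (hle.trans (hA1 _ hη)) hle (norm_nonneg _) hA
    have h2 : (1 : ℝ) ^ 2 * (A * ∑ j ∈ Finset.range N, ‖μ j ((2 : ℝ) ^ k • ξ)‖) =
        A * ∑ j ∈ Finset.range N, ‖μ j ((2 : ℝ) ^ k • ξ)‖ := by ring
    rw [h2]
    exact mul_le_mul_of_nonneg_right h1 (by positivity)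
  · intro ξ hξ
    have e : ∀ k : ℤ, ENNReal.ofReal (A * ∑ j ∈ Finset.range N, ‖μ j ((2 : ℝ) ^ k • ξ)‖) =
        ENNReal.ofReal A * ∑ j ∈ Finset.range N, ‖μ j ((2 : ℝ) ^ k • ξ)‖ₑ := by
      intro k
      rw [ENNReal.ofReal_mul hA, ENNReal.ofReal_sum_of_nonneg (fun j _ => norm_nonneg _)]
      congr 1
      refine Finset.sum_congr rfl fun j _ => ?_
      rw [ofReal_norm]
    calc ∑' k : ℤ, ENNReal.ofReal (A * ∑ j ∈ Finset.range N, ‖μ j ((2 : ℝ) ^ k • ξ)‖)
        = ∑' k : ℤ, ENNReal.ofReal A * ∑ j ∈ Finset.range N, ‖μ j ((2 : ℝ) ^ k • ξ)‖ₑ :=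
          tsum_congr e
      _ = ENNReal.ofReal A * ∑' k : ℤ, ∑ j ∈ Finset.range N, ‖μ j ((2 : ℝ) ^ k • ξ)‖ₑ :=
          ENNReal.tsum_mul_left
      _ ≤ ENNReal.ofReal A * ENNReal.ofReal B := mul_le_mul' le_rfl (hB1 ξ hξ)
      _ = ENNReal.ofReal (A * B) := (ENNReal.ofReal_mul hA).symm

end Pool.Agent.Helper80.RG
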